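import Mathlib
import Pool.Agent.TH278.DX.Defs3
import Pool.Agent.TH360.J4453

/-!
# Band operators and the left regular representation on `ℓ²(G; W)` (job 5176 of helper278)
-/

set_option autoImplicit false

namespace Pool.Agent.TH570.J5176

open Pool.Agent.TH360.J4453

theorem exists_op {G W : Type} [Group G] [NormedAddCommGroup W] [InnerProductSpace ℂ W]
    [CompleteSpace W] (E : Finset G) (Y : G → (W →L[ℂ] W)) (f : G → ℝ) (w : G → G → ℝ)
    (hw : ∀ s v, |w s v| ≤ 1) :
    ∃ T : lp (fun _ : G => W) 2 →L[ℂ] lp (fun _ : G => W) 2,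
      ∀ (φ : lp (fun _ : G => W) 2) (s : G),
        T φ s = ∑ g ∈ E, ((f g * w s (s * g) : ℝ) : ℂ) • Y g (φ (s * g)) := by
  classical
  refine ⟨∑ g ∈ E, wop (fun s : G => s * g) (mul_left_injective g)
    (fun s => ((f g * w s (s * g) : ℝ) : ℂ) • Y g) (|f g| * ‖Y g‖) (fun s => ?_)
    (by positivity), fun φ s => ?_⟩
  · rw [norm_smul, Complex.norm_real, Real.norm_eq_abs, abs_mul]
    refine mul_le_mul_of_nonneg_right ?_ (norm_nonneg _)
    calc |f g| * |w s (s * g)| ≤ |f g| * 1 :=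
          mul_le_mul_of_nonneg_left (hw _ _) (abs_nonneg _)
      _ = |f g| := mul_one _
  · rw [ContinuousLinearMap.sum_apply, lp.coeFn_sum, Finset.sum_apply]
    rfl

section reg

variable {G W : Type} [Group G] [NormedAddCommGroup W] [InnerProductSpace ℂ W]

/-- the left regular representation, as a homomorphism to the monoid of operators -/
noncomputable def reg : G →* (lp (fun _ : G => W) 2 →L[ℂ] lp (fun _ : G => W) 2) where
  toFun t := wop (fun s : G => t⁻¹ * s) (mul_right_injective t⁻¹)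
    (fun _ => ContinuousLinearMap.id ℂ W) 1 (fun _ => ContinuousLinearMap.norm_id_le) zero_le_one
  map_one' := by
    ext1 φ
    apply lp.ext
    funext s
    show φ (1⁻¹ * s) = φ s
    rw [inv_one, one_mul]
  map_mul' t u := by
    ext1 φ
    apply lp.ext
    funext s
    show φ ((t * u)⁻¹ * s) = φ (u⁻¹ * (t⁻¹ * s))
    rw [mul_inv_rev, mul_assoc]

theorem reg_apply (t : G) (φ : lp (fun _ : G => W) 2) (s : G) : reg t φ s = φ (t⁻¹ * s) := rfl

theorem star_reg [CompleteSpace W] (t : G) :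
    star (reg t : lp (fun _ : G => W) 2 →L[ℂ] lp (fun _ : G => W) 2) = reg t⁻¹ := by
  rw [ContinuousLinearMap.star_eq_adjoint]
  symm
  rw [ContinuousLinearMap.eq_adjoint_iff]
  intro x y
  rw [lp.inner_eq_tsum, lp.inner_eq_tsum]
  have h := Equiv.tsum_eq (Equiv.mulLeft t)
    (fun s => inner ℂ ((x : G → W) s) ((y : G → W) (t⁻¹ * s)))
  simp only [reg_apply]
  rw [← h]
  refine tsum_congr fun s => ?_
  simp only [Equiv.coe_mulLeft, inv_inv, inv_mul_cancel_left]

end reg

theorem exists_reg (G W : Type) [Group G] [NormedAddCommGroup W] [InnerProductSpace ℂ W]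
    [CompleteSpace W] :
    ∃ σ : G →* (lp (fun _ : G => W) 2 →L[ℂ] lp (fun _ : G => W) 2)ˣ,
      (∀ g, ((σ g : (lp (fun _ : G => W) 2 →L[ℂ] lp (fun _ : G => W) 2)ˣ) :
        lp (fun _ : G => W) 2 →L[ℂ] lp (fun _ : G => W) 2) ∈
        unitary (lp (fun _ : G => W) 2 →L[ℂ] lp (fun _ : G => W) 2)) ∧
      ∀ (t : G) (φ : lp (fun _ : G => W) 2) (s : G),
        ((σ t : (lp (fun _ : G => W) 2 →L[ℂ] lp (fun _ : G => W) 2)ˣ) :
          lp (fun _ : G => W) 2 →L[ℂ] lp (fun _ : G => W) 2) φ s = φ (t⁻¹ * s) := by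
  refine ⟨(reg (G := G) (W := W)).toHomUnits, fun g => ?_, fun t φ s => rfl⟩
  rw [MonoidHom.coe_toHomUnits, Unitary.mem_iff, star_reg, ← map_mul, ← map_mul,
    inv_mul_cancel, mul_inv_cancel, map_one]
  exact ⟨rfl, rfl⟩

end Pool.Agent.TH570.J5176
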