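import Mathlib
import Pool.Agent.TH796.AL.StmsV
import Pool.Agent.TH796.AL.Lem
import Pool.Agent.TH634.AL_REPG3

set_option autoImplicit false
set_option linter.unusedSectionVars false

/-!
# Numbers with addresses of linear complexity are represented with characters in a subspace
(job 3881; port of `Pool.Agent.TH634.AL.repg` by helper634)
-/

namespace Pool.Agent.TH570.ALV

open Filter Topology Pool.Agent.TH932.Abs Pool.Agent.TH932.Germs Pool.Agent.TH932.Chi
open Pool.Agent.TH932.Words Pool.Agent.TH932.Scale Pool.Agent.TH796.AL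
open Pool.Agent.TH634.AR (RG)

variable (X : RG) (V : Submodule ℝ (Fin X.m → ℝ))

lemma ex_mem (hV : ∀ a, (fun i => (X.e a i : ℝ)) ∈ V) (a c : ℕ) :
    (fun i => ((X.ex i a c : ℤ) : ℝ)) ∈ V := by
  have e1 : (fun i => ((X.ex i a c : ℤ) : ℝ))
      = ∑ k ∈ Finset.Ico a c, (fun i => (X.e (X.w k) i : ℝ)) := by
    funext i
    rw [Finset.sum_apply]
    unfold RG.ex
    push_cast
    rfl
  rw [e1]
  exact Submodule.sum_mem _ fun k _ => hV _

lemma lim_mem (hV : ∀ a, (fun i => (X.e a i : ℝ)) ∈ V) {a c : ℕ → ℕ} {g : Fin X.m → ℝ}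
    (hg : ∀ i, ∀ ε : ℝ, 0 < ε → ∀ᶠ n in (UU : Filter ℕ),
      |((X.ex i (a n) (c n) : ℤ) : ℝ) - g i * X.L n| ≤ ε * X.L n) : g ∈ V := by
  have hcl : IsClosed (V : Set (Fin X.m → ℝ)) := Submodule.closed_of_finiteDimensional V
  have h0 : g ∈ closure (V : Set (Fin X.m → ℝ)) := by
    rw [Metric.mem_closure_iff]
    intro ε hε
    have h1 : ∀ᶠ n in (UU : Filter ℕ), ∀ i,
        |((X.ex i (a n) (c n) : ℤ) : ℝ) - g i * X.L n| ≤ ε / 2 * X.L n := by
      rw [Filter.eventually_all]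
      intro i
      exact hg i (ε / 2) (by positivity)
    obtain ⟨n, hn⟩ := h1.exists
    have hL := X.L1 n
    have hL0 : 0 < X.L n := by linarith
    refine ⟨(X.L n)⁻¹ • (fun i => ((X.ex i (a n) (c n) : ℤ) : ℝ)),
      V.smul_mem _ (ex_mem X V hV _ _), ?_⟩
    have h2 : dist g ((X.L n)⁻¹ • (fun i => ((X.ex i (a n) (c n) : ℤ) : ℝ))) ≤ ε / 2 := by
      rw [dist_pi_le_iff (by positivity)]
      intro i
      rw [Pi.smul_apply, smul_eq_mul, Real.dist_eq]
      have h3 := hn i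
      have e1 : g i - (X.L n)⁻¹ * ((X.ex i (a n) (c n) : ℤ) : ℝ)
          = -(((X.ex i (a n) (c n) : ℤ) : ℝ) - g i * X.L n) * (X.L n)⁻¹ := by
        field_simp
        ring
      rw [e1, abs_mul, abs_neg, abs_of_pos (inv_pos.2 hL0)]
      calc |((X.ex i (a n) (c n) : ℤ) : ℝ) - g i * X.L n| * (X.L n)⁻¹
          ≤ ε / 2 * X.L n * (X.L n)⁻¹ := by gcongr
        _ = ε / 2 := by field_simp
    linarith
  rwa [hcl.closure_eq] at h0

lemma NA_const (hV : ∀ a, (fun i => (X.e a i : ℝ)) ∈ V) {a c : ℕ → ℕ} {A : ℝ} (hA : ∀ᶠ n in (UU : Filter ℕ), (c n : ℝ) ≤ A * X.L n) :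
    ∃ (κ : X.K) (g : Fin X.m → ℝ), g ∈ V ∧ κ ≠ 0 ∧ X.NA a c = (κ : GG) * ch X.B X.tL g := by
  classical
  obtain ⟨κ1, hκ1, h1⟩ := X.sign_const fun n => X.Γ (a n) (c n)
  -- exponents
  have h2 : ∀ i : Fin X.m, ∃ t : ℝ, ∀ ε : ℝ, 0 < ε → ∀ᶠ n in (UU : Filter ℕ),
      |((X.ex i (a n) (c n) : ℤ) : ℝ) - t * X.L n| ≤ ε * X.L n := by
    intro i
    have hb : ∀ᶠ n in (UU : Filter ℕ), |((X.ex i (a n) (c n) : ℤ) : ℝ)| ≤ X.E * A * X.L n := by
      filter_upwards [hA] with n hn
      have h3 : |((X.ex i (a n) (c n) : ℤ) : ℝ)| ≤ X.E * c n := by exact_mod_cast X.ex_abs i (a n) (c n)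
      calc |((X.ex i (a n) (c n) : ℤ) : ℝ)| ≤ X.E * c n := h3
        _ ≤ X.E * (A * X.L n) := by gcongr
        _ = X.E * A * X.L n := by ring
    obtain ⟨t, _, _, ht⟩ := exists_st (L := X.L) X.tL
      (a := fun n => ((X.ex i (a n) (c n) : ℤ) : ℝ) + X.E * A * X.L n) (A := 2 * (X.E * A)) (by
        filter_upwards [hb] with n hn
        have h4 := abs_le.1 hn
        constructor
        · linarith
        · linarith)
    refine ⟨t - X.E * A, fun ε hε => ?_⟩
    filter_upwards [ht ε hε] with n hn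
    have e1 : ((X.ex i (a n) (c n) : ℤ) : ℝ) - (t - X.E * A) * X.L n
        = ((X.ex i (a n) (c n) : ℤ) : ℝ) + X.E * A * X.L n - t * X.L n := by ring
    rw [e1]; exact hn
  choose g hg using h2
  obtain ⟨κ2, hκ2, h3⟩ := exists_const (B := X.B) X.tL g (fun n i => X.ex i (a n) (c n)) hg
  refine ⟨κ1 * κ2, g, lim_mem X V hV hg, mul_ne_zero hκ1 hκ2, ?_⟩
  unfold RG.NA
  rw [h1]
  have e2 : gm (fun n => |X.Γ (a n) (c n)|) = (κ2 : GG) * ch X.B X.tL g := by
    rw [← h3]
    congr 1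
    funext n
    exact X.Γ_abs_eq _ _
  rw [e2]
  push_cast
  ring

/-- combinations of the generators, with characters in `V` -/
def RepE (S : GG) : Prop := ∃ P : Option (Option (Fin (X.R + 1))) → Rg X.m X.tL,
  (∀ j g, (P j).coeff g ≠ 0 → g ∈ V) ∧ S = ∑ j, ev X.B X.tL (P j) * X.zf j

variable {X V}

lemma RepE.add {S T : GG} (hS : RepE X V S) (hT : RepE X V T) : RepE X V (S + T) := by
  obtain ⟨P, h1, h2⟩ := hS
  obtain ⟨P', h1', h2'⟩ := hT
  refine ⟨fun j => P j + P' j, ?_, ?_⟩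
  · intro j g hg
    by_contra hgV
    apply hg
    have a1 : (P j).coeff g = 0 := by
      by_contra h; exact hgV (h1 j g h)
    have a2 : (P' j).coeff g = 0 := by
      by_contra h; exact hgV (h1' j g h)
    rw [AddMonoidAlgebra.coeff_add, Finsupp.add_apply, a1, a2, add_zero]
  · rw [h2, h2', ← Finset.sum_add_distrib]
    refine Finset.sum_congr rfl fun j _ => ?_
    rw [map_add, add_mul]

lemma RepE.mul {S : GG} (hS : RepE X V S) (κ : X.K) {g : Fin X.m → ℝ} (hgV : g ∈ V) :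
    RepE X V ((κ : GG) * ch X.B X.tL g * S) := by
  obtain ⟨P, h1, h2⟩ := hS
  refine ⟨fun j => AddMonoidAlgebra.single g κ * P j, ?_, ?_⟩
  · intro j h hh
    rw [AddMonoidAlgebra.coeff_single_mul_apply] at hh
    have h3 : (P j).coeff (-g + h) ≠ 0 := by
      intro h4
      apply hh
      rw [h4, mul_zero]
    have h4 := h1 j _ h3
    have h5 := V.add_mem hgV h4
    rwa [add_neg_cancel_left] at h5
  · rw [h2, Finset.mul_sum]
    refine Finset.sum_congr rfl fun j _ => ?_
    rw [map_mul, ev_single]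
    ring

lemma RepE.const (κ : X.K) : RepE X V (κ : GG) := by
  classical
  refine ⟨fun j => if j = none then AddMonoidAlgebra.single 0 κ else 0, ?_, ?_⟩
  · intro j g hg
    by_cases h0 : g = 0
    · rw [h0]; exact V.zero_mem
    · exfalso
      apply hg
      by_cases hj : j = none
      · simp only [if_pos hj]
        rw [AddMonoidAlgebra.coeff_single, Finsupp.single_eq_of_ne h0]
      · simp only [if_neg hj]
        simp
  · have h1 : ∀ j : Option (Option (Fin (X.R + 1))), ev X.B X.tL (if j = none then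
        AddMonoidAlgebra.single 0 κ else 0) * X.zf j = if j = none then (κ : GG) else 0 := by
      intro j
      split_ifs with h
      · rw [h, ev_single, ch_zero]; simp [RG.zf]
      · rw [map_zero, zero_mul]
    simp only [h1]
    rw [Finset.sum_ite_eq' Finset.univ none]
    simp

lemma RepE.gen (i : Option (Option (Fin (X.R + 1)))) : RepE X V (X.zf i) := by
  classical
  refine ⟨fun j => if j = i then AddMonoidAlgebra.single 0 1 else 0, ?_, ?_⟩
  · intro j g hg
    by_cases h0 : g = 0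
    · rw [h0]; exact V.zero_mem
    · exfalso
      apply hg
      by_cases hj : j = i
      · simp only [if_pos hj]
        rw [AddMonoidAlgebra.coeff_single, Finsupp.single_eq_of_ne h0]
      · simp only [if_neg hj]
        simp
  · have h1 : ∀ j : Option (Option (Fin (X.R + 1))), ev X.B X.tL (if j = i then
        AddMonoidAlgebra.single 0 1 else 0) * X.zf j = if j = i then X.zf i else 0 := by
      intro j
      split_ifs with h
      · rw [h, ev_single, ch_zero]; simp
      · rw [map_zero, zero_mul]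
    simp only [h1]
    rw [Finset.sum_ite_eq' Finset.univ i]
    simp

lemma RepE.neg {S : GG} (hS : RepE X V S) : RepE X V (-S) := by
  have := hS.mul (-1) V.zero_mem
  rw [ch_zero] at this
  simpa using this

variable (X V)

/-- approximations of every order -/
def Done : Prop := ∀ E : ℝ, ∃ S : GG, RepE X V S ∧ ∃ s : ℕ → ℚ, S = gm s ∧
  ∀ᶠ n in (UU : Filter ℕ), |X.y 0 - s n| ≤ Real.exp (-(E * X.L n))

lemma done_of {a : ℕ → ℕ} (ha : RepE X V (RG.T X a)) {E : ℝ}
    (hE : ∀ᶠ n in (UU : Filter ℕ), (E + 1) * X.L n ≤ X.lam * a n) :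
    ∃ S : GG, RepE X V S ∧ ∃ s : ℕ → ℚ, S = gm s ∧
      ∀ᶠ n in (UU : Filter ℕ), |X.y 0 - s n| ≤ Real.exp (-(E * X.L n)) := by
  refine ⟨_, ha, fun n => X.Q 0 (a n), rfl, ?_⟩
  have hM := X.M0
  filter_upwards [hE, ev_of_atTop (X.tL.eventually_ge_atTop (Real.log (X.M + 1)))] with n hn h2
  refine (X.trunc (a n)).trans ?_
  calc X.M * Real.exp (-(X.lam * a n)) ≤ (X.M + 1) * Real.exp (-(X.lam * a n)) := by
        gcongr; linarith
    _ = Real.exp (Real.log (X.M + 1)) * Real.exp (-(X.lam * a n)) := by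
        rw [Real.exp_log (by positivity)]
    _ = Real.exp (Real.log (X.M + 1) + -(X.lam * a n)) := (Real.exp_add _ _).symm
    _ ≤ _ := Real.exp_le_exp.2 (by linarith)

/-- multiplication by the germ of a product -/
lemma RepE_NA (hV : ∀ a, (fun i => (X.e a i : ℝ)) ∈ V) {a c : ℕ → ℕ} {A : ℝ} (hA : ∀ᶠ n in (UU : Filter ℕ), (c n : ℝ) ≤ A * X.L n)
    {S : GG} (hS : RepE X V S) : RepE X V (X.NA a c * S) := by
  obtain ⟨κ, g, hgV, _, h⟩ := NA_const X V hV (a := a) hA
  rw [h]
  exact hS.mul κ hgV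

/-- one stage of the chain -/
lemma stage (hV : ∀ a, (fun i => (X.e a i : ℝ)) ∈ V) {a : ℕ → ℕ} {t A : ℝ} (hsm : ∀ n, X.smk n (a n)) (hr : RepE X V (RG.T X a))
    (hA : ∀ᶠ n in (UU : Filter ℕ), (a n : ℝ) ≤ A * X.L n)
    (ht : near X.L (fun n => (a n : ℝ)) t) : Done X V ∨
    ∃ (a' : ℕ → ℕ) (t' A' : ℝ), (∀ n, X.smk n (a' n)) ∧ RepE X V (RG.T X a') ∧
      (∀ᶠ n in (UU : Filter ℕ), (a' n : ℝ) ≤ A' * X.L n) ∧
      near X.L (fun n => (a' n : ℝ)) t' ∧ t + X.cmin ≤ t' := by
  classical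
  by_cases hI : ∃ A1 : ℝ, ∀ᶠ n in (UU : Filter ℕ), ∃ m, X.lm n m ∧ a n ≤ m ∧
      (m : ℝ) ≤ A1 * X.L n
  · -- there is a next long special position
    right
    obtain ⟨A1, hA1⟩ := hI
    set m : ℕ → ℕ := fun n => X.Mn n (a n) with hm
    have hst : ∀ᶠ n in (UU : Filter ℕ), X.lm n (m n) ∧ a n ≤ m n ∧
        (∀ m', a n ≤ m' → m' < m n → ¬ X.lm n m') ∧ (m n : ℝ) ≤ A1 * X.L n := by
      filter_upwards [hA1] with n hn
      obtain ⟨m0, h1, h2, h3⟩ := hn
      obtain ⟨g1, g2, g3, g4⟩ := X.Mn_spec h1 h2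
      refine ⟨g1, g2, g3, ?_⟩
      have : (m n : ℝ) ≤ m0 := by exact_mod_cast g4
      linarith
    set a' : ℕ → ℕ := fun n => X.nx n (m n) with ha'
    have hlm : ∀ᶠ n in (UU : Filter ℕ), X.lm n (m n) := hst.mono fun n h => h.1
    have ham : ∀ᶠ n in (UU : Filter ℕ), a n ≤ m n := hst.mono fun n h => h.2.1
    have hma : ∀ᶠ n in (UU : Filter ℕ), m n ≤ a' n :=
      Eventually.of_forall fun n => (X.nx_spec n (m n)).1.le
    have haa : ∀ᶠ n in (UU : Filter ℕ), a n ≤ a' n := by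
      filter_upwards [ham, hma] with n h1 h2 using h1.trans h2
    have hmA : ∀ᶠ n in (UU : Filter ℕ), (m n : ℝ) ≤ A1 * X.L n := hst.mono fun n h => h.2.2.2
    have haA : ∀ᶠ n in (UU : Filter ℕ), (a' n : ℝ) ≤ (A1 + (X.C + 1)) * X.L n := by
      filter_upwards [hmA] with n h1
      have := X.nx_le n (m n)
      simp only [ha']
      linarith
    -- the type
    obtain ⟨s, hs⟩ : ∃ s, ∀ᶠ n in (UU : Filter ℕ), X.ty n (m n) = s := by
      have h1 : (⋃ s ∈ (Set.univ : Set (Fin (X.R + 1))), {n | X.ty n (m n) = s}) ∈ UU := by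
        have : (⋃ s ∈ (Set.univ : Set (Fin (X.R + 1))), {n | X.ty n (m n) = s}) = Set.univ := by
          ext n; simp
        rw [this]; exact Filter.univ_mem
      obtain ⟨s, _, hs⟩ := (Ultrafilter.finite_biUnion_mem_iff Set.finite_univ).1 h1
      exact ⟨s, hs⟩
    have hcs : 0 < X.c s := by
      obtain ⟨n, h1, h2⟩ := (hlm.and hs).exists
      rw [← h2]; exact h1.2
    obtain ⟨c, hac, hcm, hcn, f, f', hf⟩ := X.shadow_part (a := a) (m := m) hsm ham
      (hst.mono fun n h => h.2.2.1)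
    have hca : ∀ᶠ n in (UU : Filter ℕ), c n ≤ a' n := by
      filter_upwards [hcm, hma] with n h1 h2 using h1.trans h2
    have h0a : ∀ b : ℕ → ℕ, ∀ᶠ n in (UU : Filter ℕ), (fun _ => 0 : ℕ → ℕ) n ≤ b n :=
      fun b => Eventually.of_forall fun n => Nat.zero_le _
    -- standard parts
    obtain ⟨t', _, _, ht'⟩ := exists_st (L := X.L) X.tL (a := fun n => (a' n : ℝ))
        (A := A1 + (X.C + 1)) (by
          filter_upwards [haA] with n hn using ⟨by positivity, hn⟩)
    have hcA : ∀ᶠ n in (UU : Filter ℕ), (c n : ℝ) ≤ (A1 + (X.C + 1)) * X.L n := by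
      filter_upwards [hca, haA] with n h1 h2
      exact (by exact_mod_cast h1 : (c n : ℝ) ≤ a' n).trans h2
    refine ⟨a', t', A1 + (X.C + 1), fun n => (X.nx_spec n _).2.1, ?_, haA, ht', ?_⟩
    · have hρ : X.QA m a' = X.zf (some (some s)) := by
        unfold RG.QA RG.zf
        rw [gm_eq]
        filter_upwards [hlm, hs] with n h1 h2
        obtain ⟨h4, h5⟩ := X.type_spec h1.1
        rw [h2] at h5
        exact h5
      have e1 : RG.T X a' = RG.T X a + X.NA (fun _ => 0) a * ((f : GG) + -(X.NA a c * f'))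
          + X.NA (fun _ => 0) a * (X.NA a c * (X.QA c m + X.NA c m * X.zf (some (some s)))) := by
        unfold RG.T
        rw [X.comp (h0a a) haa, X.comp hac hca, X.comp hcm hma, hf, hρ]
        ring
      rw [e1]
      have k1' : RepE X V (-(X.NA a c * (f' : GG))) := (RepE_NA X V hV hcA (RepE.const f')).neg
      have k2 : RepE X V (X.QA c m) := by
        have h1 := X.QA_const hcm hcn
        exact RepE.const (X := X) (V := V) ⟨_, h1⟩
      have k3 : RepE X V (X.NA c m * X.zf (some (some s))) := RepE_NA X V hV hmA (RepE.gen _)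
      exact (hr.add (RepE_NA X V hV hA ((RepE.const f).add k1'))).add
        (RepE_NA X V hV hA (RepE_NA X V hV hcA (k2.add k3)))
    · have h1 : X.c s ≤ t' - t := by
        refine Pool.Agent.TH932.S2.near_le X.tL (X.c_near s) (ht'.sub ht) ?_
        filter_upwards [hlm, hs, ham] with n h1 h2 h3
        have h4 := (X.type_spec h1.1).1
        rw [h2] at h4
        have h5 : (a' n : ℝ) = m n + X.len n s := by exact_mod_cast h4
        have h6 : (a n : ℝ) ≤ m n := by exact_mod_cast h3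
        linarith
      have := X.cmin_le s hcs
      linarith
  · -- no further long special positions
    left
    push Not at hI
    intro E
    set A1 : ℝ := |A| + (|E| + 1) / X.lam + 2 with hA1
    have hlb := X.lam_pos
    have hA1p : 0 ≤ A1 := by positivity
    have h1 := hI A1
    have h2 : ∀ᶠ n in (UU : Filter ℕ), ¬ ∃ m, X.lm n m ∧ a n ≤ m ∧ (m : ℝ) ≤ A1 * X.L n := by
      filter_upwards [h1] with n hn
      rintro ⟨m, h3, h4, h5⟩
      exact absurd h5 (not_le.2 (hn m h3 h4))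
    set m : ℕ → ℕ := fun n => ⌊A1 * X.L n⌋₊ with hm
    have hm1 : ∀ n, (m n : ℝ) ≤ A1 * X.L n := fun n =>
      Nat.floor_le (by have := X.L1 n; positivity)
    have hm2 : ∀ n, A1 * X.L n < m n + 1 := fun n => Nat.lt_floor_add_one _
    have ham : ∀ᶠ n in (UU : Filter ℕ), a n ≤ m n := by
      filter_upwards [hA] with n h3
      have h4 := hm2 n
      have h5 := X.L1 n
      have h6 : A * X.L n ≤ |A| * X.L n := by have := le_abs_self A; gcongr
      have h7 : 0 ≤ (|E| + 1) / X.lam * X.L n := by positivity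
      have h8 : (a n : ℝ) < m n + 1 := by
        rw [hA1] at h4
        nlinarith
      have : a n < m n + 1 := by exact_mod_cast h8
      omega
    obtain ⟨c, hac, hcm, hcn, f, f', hf⟩ := X.shadow_part (a := a) (m := m) hsm ham (by
      filter_upwards [h2] with n h3 m' h4 h5 h6
      exact h3 ⟨m', h6, h4, by
        have : (m' : ℝ) ≤ m n := by exact_mod_cast h5.le
        exact this.trans (hm1 n)⟩)
    have hcA : ∀ᶠ n in (UU : Filter ℕ), (c n : ℝ) ≤ A1 * X.L n := by
      filter_upwards [hcm] with n hn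
      exact (by exact_mod_cast hn : (c n : ℝ) ≤ m n).trans (hm1 n)
    have h0a : ∀ b : ℕ → ℕ, ∀ᶠ n in (UU : Filter ℕ), (fun _ => 0 : ℕ → ℕ) n ≤ b n :=
      fun b => Eventually.of_forall fun n => Nat.zero_le _
    refine done_of X V (a := c) ?_ ?_
    · have e1 : RG.T X c = RG.T X a + X.NA (fun _ => 0) a * ((f : GG) + -(X.NA a c * f')) := by
        unfold RG.T
        rw [X.comp (h0a a) hac, hf]
        ring
      rw [e1]
      have k1' : RepE X V (-(X.NA a c * (f' : GG))) := (RepE_NA X V hV hcA (RepE.const f')).neg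
      exact hr.add (RepE_NA X V hV hA ((RepE.const f).add k1'))
    · filter_upwards [hcn (1 / 2) (by norm_num)] with n h3
      have h4 := (abs_le.1 h3).2
      have h5 := hm2 n
      have h6 := X.L1 n
      simp only [zero_mul, sub_zero] at h4
      have h7 : (|E| + 1) / X.lam * X.L n ≤ c n := by
        rw [hA1] at h5
        have : 0 ≤ |A| * X.L n := by positivity
        nlinarith
      have h8 : (|E| + 1) / X.lam * X.L n * X.lam ≤ c n * X.lam := by gcongr
      have h9 : (|E| + 1) / X.lam * X.L n * X.lam = (|E| + 1) * X.L n := by field_simp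
      have h10 : (E + 1) * X.L n ≤ (|E| + 1) * X.L n := by have := le_abs_self E; gcongr
      linarith

/-- the chain -/
lemma chain (hV : ∀ a, (fun i => (X.e a i : ℝ)) ∈ V) (e : ℕ) : Done X V ∨
    ∃ (a : ℕ → ℕ) (t A : ℝ), (∀ n, X.smk n (a n)) ∧ RepE X V (RG.T X a) ∧
      (∀ᶠ n in (UU : Filter ℕ), (a n : ℝ) ≤ A * X.L n) ∧
      near X.L (fun n => (a n : ℝ)) t ∧ e * X.cmin ≤ t := by
  induction e with
  | zero =>
    right
    obtain ⟨t, ht0, _, ht⟩ := exists_st (L := X.L) X.tL (a := fun n => (X.nx n 0 : ℝ))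
      (A := X.C + 1) (Eventually.of_forall fun n => ⟨by positivity, X.nx0_le n⟩)
    exact ⟨fun n => X.nx n 0, t, X.C + 1, fun n => (X.nx_spec n 0).2.1,
      RepE.gen (X := X) (V := V) (some none), Eventually.of_forall fun n => X.nx0_le n, ht, by simpa using ht0⟩
  | succ e ih =>
    rcases ih with h | ⟨a, t, A, h1, h2, h3, h4, h5⟩
    · exact Or.inl h
    · rcases stage X V hV h1 h2 h3 h4 with h | ⟨a', t', A', g1, g2, g3, g4, g5⟩
      · exact Or.inl h
      · right
        refine ⟨a', t', A', g1, g2, g3, g4, ?_⟩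
        push_cast
        linarith

lemma done (hV : ∀ a, (fun i => (X.e a i : ℝ)) ∈ V) : Done X V := by
  intro E
  have hlb := X.lam_pos
  have hcm := X.cmin_pos
  obtain ⟨e, he⟩ := exists_nat_gt (((|E| + 1) / X.lam + 1) / X.cmin)
  rw [div_lt_iff₀ hcm] at he
  rcases chain X V hV e with h | ⟨a, t, A, h1, h2, h3, h4, h5⟩
  · exact h E
  · refine done_of X V h2 ?_
    filter_upwards [h4 1 one_pos] with n h6
    have h7 := (abs_le.1 h6).1
    have h8 := X.L1 n
    have h9 : (|E| + 1) / X.lam * X.L n ≤ a n := by nlinarith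
    have h10 : (|E| + 1) / X.lam * X.L n * X.lam ≤ a n * X.lam := by gcongr
    have h11 : (|E| + 1) / X.lam * X.L n * X.lam = (|E| + 1) * X.L n := by field_simp
    have h12 : (E + 1) * X.L n ≤ (|E| + 1) * X.L n := by have := le_abs_self E; gcongr
    linarith

/-- **Representations.** -/
theorem rep (hV : ∀ a, (fun i => (X.e a i : ℝ)) ∈ V) : RepV X.B X.tL V (X.y 0) := by
  refine ⟨Option (Option (Fin (X.R + 1))), inferInstance, X.zf, X.SZ, X.zf_mem, X.zf_sint,
    fun E => ?_⟩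
  obtain ⟨S, ⟨P, hP1, hP2⟩, s, hs, hx⟩ := done X V hV E
  exact ⟨P, s, hP1, by rw [← hs]; exact hP2, hx⟩

theorem repv : RepVStmt := by
  intro m B α hα γ c hγ e he w x hadr hx N hN2 C hC hL V hV
  obtain ⟨y, M, hM, hy0, hy⟩ := hadr
  have hC0 : 0 ≤ |C| := abs_nonneg C
  have h1 : ∀ n, ∃ l, N n ≤ 2 * l ∧ l ≤ N n ∧ (cx w l : ℝ) ≤ 2 * |C| * l ∧
      (cx w (l + 1) : ℝ) ≤ 3 * |C| + cx w l := by
    intro n
    apply Pool.Agent.TH932.S2.exists_scale2 _ hC0 (hN2 n)
    refine (hC n).trans ?_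
    have := le_abs_self C
    gcongr
  choose l hl1 hl2 hl3 hl4 using h1
  have g1 : ∀ n, 1 ≤ l n := fun n => by
    have h2 := hl1 n
    have h3 := hN2 n
    omega
  have g2 : ∀ n, (l n : ℝ) ≤ (N n : ℝ) := fun n => by exact_mod_cast hl2 n
  have g3 : ∀ n, (N n : ℝ) ≤ 2 * (l n : ℝ) := fun n => by exact_mod_cast hl1 n
  have g4 : ∀ n, 2 * cx w (l n + 1) ≤ ⌈6 * |C|⌉₊ + 2 * cx w (l n) := fun n => by
    have h2 := hl4 n
    have h3 : 6 * |C| ≤ (⌈6 * |C|⌉₊ : ℝ) := Nat.le_ceil _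
    have h4 : ((2 * cx w (l n + 1) : ℕ) : ℝ)
        ≤ ((⌈6 * |C|⌉₊ + 2 * cx w (l n) : ℕ) : ℝ) := by
      push_cast
      linarith
    exact_mod_cast h4
  have h5 := rep { m := m, B := B, α := α, fin := hα, γ := γ, tr := c, hγ := hγ, e := e, he := he, w := w, y := y, M := M, hM := hM, hy := hy, hx := by rw [hy0]; exact hx, l := l, L := fun n => (N n : ℝ), R := ⌈6 * |C|⌉₊, C := 2 * |C|, tL := hL, hl1 := g1, hlL := g2, hLl := g3, hcx := hl3, hR := g4 } V hV
  have h6 : RepV B hL V (y 0) := h5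
  rw [hy0] at h6
  exact h6

end Pool.Agent.TH570.ALV
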