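import Pool.Agent.TH152.BB.Stm

/-!
Bend and break (helper152), LEAD: leading coefficients of an evaluation (job 4274, helper570).
-/

set_option autoImplicit false

namespace Pool.Agent.TH152.BB

open Pool.Agent.TH952 (Hah)

namespace Lead

variable {K : Type} [Field K]

lemma mul_low {a b : ℚ} {x y : Hah K} (hx : ∀ γ < a, x.coeff γ = 0)
    (hy : ∀ γ < b, y.coeff γ = 0) : ∀ γ < a + b, (x * y).coeff γ = 0 := by
  intro γ hγ
  rw [HahnSeries.coeff_mul]
  refine Finset.sum_eq_zero fun ij hij => ?_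
  have h1 : ij.1 + ij.2 = γ := (Finset.mem_antidiagonal.1 hij).2.2
  rcases lt_or_ge ij.1 a with h | h
  · rw [hx _ h, zero_mul]
  · rw [hy ij.2 (by linarith), mul_zero]

lemma mul_top {a b : ℚ} {x y : Hah K} (hx : ∀ γ < a, x.coeff γ = 0)
    (hy : ∀ γ < b, y.coeff γ = 0) : (x * y).coeff (a + b) = x.coeff a * y.coeff b := by
  rw [HahnSeries.coeff_mul]
  refine Finset.sum_eq_single (a, b) (fun ij hij hne => ?_) (fun hn => ?_)
  · have h1 : ij.1 + ij.2 = a + b := (Finset.mem_antidiagonal.1 hij).2.2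
    rcases lt_trichotomy ij.1 a with h | h | h
    · rw [hx _ h, zero_mul]
    · exfalso
      exact hne (Prod.ext h (by linarith))
    · rw [hy ij.2 (by linarith), mul_zero]
  · by_cases h1 : x.coeff a = 0
    · rw [h1, zero_mul]
    · by_cases h2 : y.coeff b = 0
      · rw [h2, mul_zero]
      · exact absurd (Finset.mem_antidiagonal.2 ⟨h1, h2, rfl⟩) hn

lemma pow_low {q : ℚ} {τ : Hah K} (hτ : ∀ γ < q, τ.coeff γ = 0) (i : ℕ) :
    (∀ γ < i * q, (τ ^ i).coeff γ = 0) ∧ (τ ^ i).coeff (i * q) = τ.coeff q ^ i := by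
  induction i with
  | zero =>
    refine ⟨fun γ hγ => ?_, ?_⟩
    · rw [pow_zero, HahnSeries.coeff_one, if_neg]
      rintro rfl
      simp at hγ
    · rw [pow_zero, pow_zero, HahnSeries.coeff_one, if_pos]
      simp
  | succ i ih =>
    have e : ((i + 1 : ℕ) : ℚ) * q = i * q + q := by push_cast; ring
    rw [e, pow_succ, pow_succ]
    refine ⟨mul_low ih.1 hτ, ?_⟩
    rw [mul_top ih.1 hτ, ih.2]

lemma ofps {k : Type} [Field k] (g : PowerSeries k) (γ : ℚ)
    (h : (HahnSeries.ofPowerSeries ℚ k g).coeff γ ≠ 0) :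
    ∃ a : ℕ, γ = a ∧ PowerSeries.coeff a g ≠ 0 := by
  have h1 : γ ∈ (Nat.castOrderEmbedding (α := ℚ)) ''
      (HahnSeries.toPowerSeries.symm g).support := by
    by_contra hn
    exact h (HahnSeries.embDomain_notin_image_support hn)
  obtain ⟨a, -, ha⟩ := h1
  refine ⟨a, ha.symm, fun h0 => h ?_⟩
  rw [← ha]
  exact (HahnSeries.ofPowerSeries_apply_coeff g a).trans h0

lemma trunc_eq {k : Type} [Field k] (f : O2 k) (N : ℕ) :
    ((PowerSeries.trunc N f : Polynomial (PowerSeries k)) : PowerSeries (PowerSeries k)) =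
      ∑ i ∈ Finset.range N, PowerSeries.C (PowerSeries.coeff i f) * PowerSeries.X ^ i := by
  ext1 n
  rw [Polynomial.coeff_coe, PowerSeries.coeff_trunc, map_sum]
  simp only [PowerSeries.coeff_C_mul, PowerSeries.coeff_X_pow, mul_ite, mul_one, mul_zero]
  rw [Finset.sum_ite_eq]
  simp

end Lead

open Lead in
theorem lead_all : S_LEAD := by
  intro k K _ _ j τ q hq hτ hτ0 E hE f μ hf
  have hord : q ≤ τ.order := by
    by_contra h
    exact hτ0 (HahnSeries.coeff_order_eq_zero.1 (hτ _ (not_le.1 h)))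
  have hterm : ∀ i : ℕ, ∀ γ < μ - i * q, (io j (PowerSeries.coeff i f)).coeff γ = 0 := by
    intro i γ hγ
    by_contra hne
    have h1 : (HahnSeries.ofPowerSeries ℚ k (PowerSeries.coeff i f)).coeff γ ≠ 0 := by
      intro h0
      apply hne
      show j ((HahnSeries.ofPowerSeries ℚ k (PowerSeries.coeff i f)).coeff γ) = 0
      rw [h0, map_zero]
    obtain ⟨a, rfl, ha⟩ := ofps _ _ h1
    have := hf i a ha
    linarith
  have hsum : ∀ N : ℕ, E ((PowerSeries.trunc N f : Polynomial (PowerSeries k)) :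
      PowerSeries (PowerSeries k)) =
        ∑ i ∈ Finset.range N, io j (PowerSeries.coeff i f) * τ ^ i := by
    intro N
    rw [trunc_eq, map_sum]
    refine Finset.sum_congr rfl fun i _ => ?_
    rw [map_mul, map_pow, hE.C, hE.X]
  have e : ∀ i : ℕ, μ - i * q + i * q = μ := fun i => by ring
  refine ⟨fun γ hγ => ?_, fun N hN => ?_⟩
  · obtain ⟨N, hN⟩ := exists_nat_gt (γ / τ.order)
    rw [div_lt_iff₀ (hq.trans_le hord)] at hN
    rw [hE.cont f γ N hN, hsum, HahnSeries.coeff_sum]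
    refine Finset.sum_eq_zero fun i _ => ?_
    exact mul_low (hterm i) (pow_low hτ i).1 γ (by rw [e]; exact hγ)
  · have hN' : μ < N * τ.order :=
      hN.trans_le (mul_le_mul_of_nonneg_left hord (Nat.cast_nonneg N))
    rw [hE.cont f μ N hN', hsum, HahnSeries.coeff_sum]
    refine Finset.sum_congr rfl fun i _ => ?_
    have h1 := mul_top (hterm i) (pow_low hτ i).1
    rw [e, (pow_low hτ i).2] at h1
    exact h1

end Pool.Agent.TH152.BB
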